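import Pool.Agent.Lib.MP_cb7904_an.H16Main

/-!
For a prime `p`, the least value over sets `A` of `(p - 1) / 2` residues of the sum of the absolute
values of the Fourier coefficients of the indicator of `A` has order exactly `log p`.
-/

namespace Pool.Agent.Results.MP_cb7904_an.SharpLog

open Finset Pool.Agent.Lib.MP_cb7904_an.H16

theorem result :
    ∃ c C : ℝ, 0 < c ∧ ∃ p₀ : ℕ, ∀ (p : ℕ) [Fact p.Prime], p₀ ≤ p →
      (∀ A : Finset (ZMod p), A.card = (p - 1) / 2 →
        c * Real.log p ≤ ∑ r : ZMod p, ‖(1 / p : ℂ) * ∑ x ∈ A,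
          Complex.exp (-(2 * Real.pi * Complex.I * (r.val * x.val) / p))‖) ∧
      ∃ A : Finset (ZMod p), A.card = (p - 1) / 2 ∧
        ∑ r : ZMod p, ‖(1 / p : ℂ) * ∑ x ∈ A,
          Complex.exp (-(2 * Real.pi * Complex.I * (r.val * x.val) / p))‖ ≤ C * Real.log p := by
  refine ⟨1 / 32640, 3, by norm_num, 120 * 4 ^ 7, fun p hp h => ?_⟩
  have h1 : ∀ r x : ZMod p, Complex.exp (-(2 * Real.pi * Complex.I * (r.val * x.val) / p))
      = ZMod.stdAddChar (-(r * x)) := fun r x => by
    have := ZMod.stdAddChar_coe (N := p) (-(r.val * x.val : ℕ))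
    push_cast at this
    rw [ZMod.natCast_zmod_val, ZMod.natCast_zmod_val] at this
    rw [this]
    congr 1; ring
  simp only [h1]
  have hp0 : (120 * 4 ^ 7 : ℝ) ≤ p := by exact_mod_cast h
  refine ⟨fun A hA => ?_, ?_⟩
  · obtain ⟨J, hJ⟩ : ∃ J, Nat.log 4 (p / 120) = J + 7 := Nat.exists_eq_add_of_le'
      (Nat.le_log_of_pow_le (by norm_num) (by omega))
    have h2 := Nat.pow_log_le_self 4 (show p / 120 ≠ 0 by omega)
    have h3 := Nat.lt_pow_succ_log_self (show 1 < 4 by norm_num) (p / 120)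
    rw [hJ] at h2 h3
    have h4 := lower hA (J := J + 6) (by rw [show J + 6 + 1 = J + 7 from rfl]; omega)
    have h5 : (p : ℝ) ≤ 4 ^ (J + 12) := by
      rw [pow_succ, pow_add] at h3
      rw [pow_add]
      exact_mod_cast (by omega)
    have h6 := Real.log_le_log (by linarith) h5
    have h7 : Real.log 4 ≤ 2 := by
      rw [show (4 : ℝ) = 2 ^ 2 by norm_num, Real.log_pow]
      push_cast
      linarith [Real.log_two_lt_d9]
    rw [Real.log_pow] at h6
    push_cast at h4 h6
    unfold co at h4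
    nlinarith [(J.cast_nonneg : (0 : ℝ) ≤ J)]
  · obtain ⟨A, hA, h2⟩ := upper (p := p)
    refine ⟨A, hA, h2.trans ?_⟩
    have : 1 ≤ Real.log p := by
      rw [Real.le_log_iff_exp_le (by linarith)]; linarith [Real.exp_one_lt_d9]
    linarith

end Pool.Agent.Results.MP_cb7904_an.SharpLog
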